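import Pool.Agent.TH936.AG.FinalM

/-!
# Simple zeros at the centre of Hecke `L`-functions twisted by ring class characters

`R` is the ring of integers of an imaginary quadratic field `K` of class number one, `m ≥ 2`, `ψ` a
primitive Hecke character of `K` of conductor `f` and infinity type `(2 m - 1, 0)` with
`ψ(bar I) = conj ψ(I)`.  For a prime number `q` prime to `f` let `K[q]` be the ring class field of
conductor `q`; the nontrivial characters of `Gal(K[q] / K)` are the ring class characters `χ` of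
conductor `q`: the primitive ray class characters of conductor `(q)` that are trivial on the rational
integers prime to `q`.  The characters `π(I) = ψ(I) χ(I) N(I) ^ (-m)` satisfy
`π(I)⁻¹ = π(bar I) N(I)`, that is `π^∨ = π^c |·|⁻¹`: they are conjugate self-dual of motivic weight
`-1`, and `L(s, π) = L(ψ χ, s + m)`.

The functional equation relates `L(ψ χ, s)` to `L(ψ χ, 2 m - s)`, with sign
`w (ψ((q)) / q ^ (2 m - 1)) χ(f)`, `w` being the sign of `L(ψ, s)`; the sign is the same for all the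
Galois conjugates `χ ^ a`.  If the sign is `-1` then `L(ψ χ, s)` vanishes at `s = m`.  The theorem: for
every `ε > 0`, every sufficiently large `q` and EVERY ring class character `χ` of conductor `q` and
order `d ≥ q ^ (2/3 + ε)` with sign `-1`, the zero is simple, with `|L'(ψ χ ^ a, m)| ≥ q ^ (-1/17)`,
for at least `d ^ 2 q ^ (-9/8)` of the conjugates `χ ^ a`; the same holds for the `a ≡ 1 mod M`,
`M ∣ d` bounded.  (`χ` has order at most `q + 1`; for `d ≥ q ^ (1 - δ)` these are at least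
`q ^ (7/8 - 2 δ)` conjugates.)

The case of sign `+1` is `MP_ec4e4b_nt.AnticyclotomicTwists`, the case `m = 1` is
`MP_26073e_nt.RingClassSimpleZeros`.

The approach: the average over the `a` of the product of `L'(ψ χ ^ a, m)` with a mollifier.  The
derivative is twice a sum over the ideals with a weight function that has a logarithmic singularity
at `0`; as `ψ χ` restricted to the rational integers does not depend on `χ`, every ideal is written as
`(k) c` with `c` prime to its conjugate; the multiplicative relations between the `c` of norm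
`≤ q ^ (6/5)` are controlled by counting elements of `R` on lines modulo `q` and a power trick; the
mollifier is the product over the split primes `p ≤ (log q) ^ 200`.  The derivative produces a main
term of the size of `log q` times the mollified constant, and the logarithm also produces the ideals
`c` divisible by one small split prime, whose contribution is bounded by a sharp count (project AD).
The number of the conjugates follows from this average and the mean square:
`∑ |L'(ψ χ ^ a, m)| ^ 2 ≤ C q ^ (1 + ε)`, the sum over all `a`, which is proved for every ring class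
character `χ` of conductor `q` with sign `-1`, again by counting the pairs of ideals with the same
value of all `χ ^ a` on lines modulo `q` (project AG).
-/

set_option autoImplicit false

open Complex

namespace Pool.Agent.Results.MP_7c08ba_nt.AnticyclotomicSimpleZeros

/-- The norm `N(I)` of an ideal (`0` for the zero ideal, whose residue ring is infinite). -/
noncomputable def norm {R : Subring ℂ} (I : Ideal R) : ℝ := (Nat.card (R ⧸ I) : ℝ)

/-- `ψ`, a function on the ideals of `R`, is a primitive Hecke character of conductor `f` and infinity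
type `(n, 0)`: it is multiplicative, vanishes exactly at the zero ideal and the ideals not prime to
`f`, satisfies `ψ((α)) = α ^ n` for `α ≡ 1 mod f`, and this fails for every strictly larger ideal `f'`
in place of `f`.  For `n = 0` these are the primitive ray class characters of conductor `f`. -/
structure IsHecke {R : Subring ℂ} (n : ℕ) (f : Ideal R) (ψ : Ideal R → ℂ) : Prop where
  ne_bot : f ≠ ⊥
  mul : ∀ I J : Ideal R, ψ (I * J) = ψ I * ψ J
  eq_zero : ∀ I : Ideal R, ψ I = 0 ↔ (I = ⊥ ∨ ¬ IsCoprime I f)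
  principal : ∀ α : R, α ≠ 0 → α - 1 ∈ f → ψ (Ideal.span {α}) = (α : ℂ) ^ n
  primitive : ∀ f' : Ideal R, f < f' → ∃ α : R, α ≠ 0 ∧ α - 1 ∈ f' ∧ IsCoprime (Ideal.span {α}) f ∧
    ψ (Ideal.span {α}) ≠ (α : ℂ) ^ n

/-- `ψ(bar I) = conj ψ(I)` (for principal ideals) -/
def ConjSymmetric {R : Subring ℂ} (ψ : Ideal R → ℂ) : Prop :=
  ∀ α β : R, (β : ℂ) = (starRingEnd ℂ) (α : ℂ) →
    ψ (Ideal.span {β}) = (starRingEnd ℂ) (ψ (Ideal.span {α}))

/-- `χ` is a (primitive) ring class character of conductor the prime number `q`: a primitive ray class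
character of conductor `(q)` that is trivial on the rational integers prime to `q`. -/
structure IsRingClass {R : Subring ℂ} (q : ℕ) (χ : Ideal R → ℂ) : Prop where
  prime : q.Prime
  hecke : IsHecke 0 (Ideal.span {(q : R)}) χ
  int : ∀ m : ℕ, Nat.Coprime m q → χ (Ideal.span {(m : R)}) = 1

/-- `d` is the order of the character `χ`. -/
structure IsOrder {R : Subring ℂ} (χ : Ideal R → ℂ) (d : ℕ) : Prop where
  pos : 0 < d
  pow : ∀ I : Ideal R, χ I ≠ 0 → χ I ^ d = 1
  least : ∀ n : ℕ, 0 < n → (∀ I : Ideal R, χ I ≠ 0 → χ I ^ n = 1) → d ≤ n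

/-- `F` is entire and `F(s) = ∑ θ(I) N(I)^(-s)` for `Re s > m + 1/2`. -/
structure IsLFunction {R : Subring ℂ} (m : ℕ) (θ : Ideal R → ℂ) (F : ℂ → ℂ) : Prop where
  entire : Differentiable ℂ F
  series : ∀ s : ℂ, (m : ℝ) + 1 / 2 < s.re →
    HasSum (fun I : Ideal R => θ I * (norm I : ℂ) ^ (-s)) (F s)

/-- The functional equation with conductor `𝔣` and sign `W`: with `A = √(|D| N(𝔣)) / 2π`, where
`√|D| = 2 Im ω`, and `Λ(s) = A ^ s Γ(s) F(s)`, one has `Λ(s) = W Λ(2 m - s)` for
`0 < Re s < 2 m`. -/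
def FunctionalEquation {R : Subring ℂ} (m : ℕ) (ω : ℂ) (𝔣 : Ideal R) (W : ℂ) (F : ℂ → ℂ) : Prop :=
  ∀ s : ℂ, 0 < s.re → s.re < 2 * m →
    ((ω.im * Real.sqrt (norm 𝔣) / Real.pi : ℝ) : ℂ) ^ s * Complex.Gamma s * F s =
      W * (((ω.im * Real.sqrt (norm 𝔣) / Real.pi : ℝ) : ℂ) ^ (2 * (m : ℂ) - s) *
        Complex.Gamma (2 * (m : ℂ) - s) * F (2 * (m : ℂ) - s))

/-- the sign of `L(ψ χ, s)`, where `w` is the sign of `L(ψ, s)` -/
noncomputable def sign {R : Subring ℂ} (m : ℕ) (w : ℂ) (f : Ideal R) (ψ : Ideal R → ℂ) (q : ℕ)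
    (χ : Ideal R → ℂ) : ℂ := w * (ψ (Ideal.span {(q : R)}) / (q : ℂ) ^ (2 * m - 1)) * χ f

open Classical in
/-- the power `χ ^ a` of a character: `χ(I) ^ a` if `χ(I) ≠ 0` and `0` otherwise; for `a` prime to the
order of `χ` these are the Galois conjugates of `χ` -/
noncomputable def power {R : Subring ℂ} (χ : Ideal R → ℂ) (a : ℕ) : Ideal R → ℂ :=
  fun I => if χ I = 0 then 0 else χ I ^ a

/-- the exponents `a` modulo the order `d` of `χ`, prime to `d` and congruent to `1` modulo `M`, for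
which `L (χ ^ a)` has a simple zero at the point `z`, with derivative of absolute value at least `t` -/
def simple {R : Subring ℂ} (L : (Ideal R → ℂ) → ℂ → ℂ) (z : ℂ) (t : ℝ) (χ : Ideal R → ℂ) (d M : ℕ) :
    Set ℕ :=
  {a : ℕ | a < d ∧ Nat.Coprime a d ∧ a ≡ 1 [MOD M] ∧ analyticOrderAt (L (power χ a)) z = 1 ∧
    t ≤ ‖deriv (L (power χ a)) z‖}

open Pool.Agent.W192.HK in
theorem isHecke_iff {R : Subring ℂ} (n : ℕ) (f : Ideal R) (ψ : Ideal R → ℂ) :
    IsHecke n f ψ ↔ HC n f ψ :=
  ⟨fun h => ⟨h.ne_bot, h.mul, h.eq_zero, h.principal, h.primitive⟩,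
    fun h => ⟨h.ne, h.mul, h.zero, h.princ, h.prim⟩⟩

open Pool.Agent.W192.HK Pool.Agent.TH936.AC in
theorem isRingClass_iff {R : Subring ℂ} (q : ℕ) (χ : Ideal R → ℂ) :
    IsRingClass q χ ↔ HC 0 (sp (q : R)) χ ∧ RG q χ := by
  constructor
  · intro h
    have h1 : HC 0 (sp (q : R)) χ := (isHecke_iff _ _ _).1 h.hecke
    exact ⟨h1, ⟨h.prime, h1.rc, h.int⟩⟩
  · rintro ⟨h1, h2⟩
    exact ⟨h2.prime, (isHecke_iff _ _ _).2 h1, h2.int⟩

/-- **Main theorem.** Let `R = ℤ + ℤ ω` be a subring of `ℂ` that is a lattice and a principal ideal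
domain, `m ≥ 2` and `ψ` a primitive Hecke character of conductor `f` and infinity type `(2 m - 1, 0)`
on the ideals of `R` with `ψ(bar I) = conj ψ(I)`.  There are `w = ±1`, a function `L₀` and functions
`L χ` such that `L₀` is `L(ψ, s)` and has the functional equation with sign `w`, and for every ring
class character `χ` of prime conductor `q` prime to `f` the function `L χ` is `L(ψ χ, s)`, it has
finite order at `s = m`, its functional equation has the sign
`w (ψ((q)) / q ^ (2 m - 1)) χ(f) = ±1`, and `L χ m = 0` if this sign is `-1`; if `a` is prime to the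
order of `χ` then `χ ^ a` is again a ring class character of conductor `q`.  For every `ε > 0` and
`M ≥ 1` there is `q₀` such that for `q ≥ q₀`, every `χ` of order `d ≥ q ^ (2/3 + ε)` with sign `-1`
and every divisor `M' ≤ M` of `d` there are at least `d ^ 2 q ^ (-9/8)` numbers `a < d` prime to `d`,
`a ≡ 1 mod M'`, such that `L (χ ^ a)` has a simple zero at `s = m` and its derivative there has
absolute value at least `q ^ (-1/17)`. -/
theorem result (R : Subring ℂ) (ω : ℂ) (hω : 0 < ω.im)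
    (hR : ∀ z : ℂ, z ∈ R ↔ ∃ x y : ℤ, z = x + y * ω) (hpid : IsPrincipalIdealRing R)
    (m : ℕ) (hm : 2 ≤ m) (f : Ideal R) (ψ : Ideal R → ℂ) (hψ : IsHecke (2 * m - 1) f ψ)
    (hc : ConjSymmetric ψ) :
    ∃ (w : ℂ) (L₀ : ℂ → ℂ) (L : (Ideal R → ℂ) → ℂ → ℂ),
      (w = 1 ∨ w = -1) ∧ IsLFunction m ψ L₀ ∧ FunctionalEquation m ω f w L₀ ∧
      (∀ (q : ℕ) (χ : Ideal R → ℂ), IsRingClass q χ → IsCoprime f (Ideal.span {(q : R)}) →
        IsLFunction m (fun I => ψ I * χ I) (L χ) ∧ analyticOrderAt (L χ) m ≠ ⊤ ∧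
        FunctionalEquation m ω (f * Ideal.span {(q : R)}) (sign m w f ψ q χ) (L χ) ∧
        (sign m w f ψ q χ = 1 ∨ sign m w f ψ q χ = -1) ∧
        (sign m w f ψ q χ = -1 → L χ m = 0) ∧
        ∀ d : ℕ, IsOrder χ d → ∀ a : ℕ, Nat.Coprime a d → IsRingClass q (power χ a)) ∧
      ∀ ε : ℝ, 0 < ε → ∀ M : ℕ, 1 ≤ M → ∃ q₀ : ℝ, ∀ (q : ℕ) (χ : Ideal R → ℂ), IsRingClass q χ →
        IsCoprime f (Ideal.span {(q : R)}) → q₀ ≤ q → ∀ d : ℕ, IsOrder χ d →
        (q : ℝ) ^ (2 / 3 + ε) ≤ d → sign m w f ψ q χ = -1 →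
        ∀ M' : ℕ, 1 ≤ M' → M' ≤ M → M' ∣ d →
          (d : ℝ) ^ 2 * (q : ℝ) ^ (-9 / 8 : ℝ) ≤
            ((simple L m ((q : ℝ) ^ (-1 / 17 : ℝ)) χ d M').ncard : ℝ) := by
  obtain ⟨e, rfl⟩ : ∃ e : ℕ, m = e + 1 := ⟨m - 1, by omega⟩
  have abar := Pool.Agent.TH936.AC.a_bar Pool.Agent.W287.HK.h_basic
  have hpw := Pool.Agent.W283.HK.PW.h_pw Pool.Agent.W287.HK.h_basic
  have hQ : Pool.Agent.TH936.AC.QP R ω := ⟨⟨hω, hR, inferInstance⟩, hpid⟩
  have hψe : Pool.Agent.W192.HK.HC (2 * e + 1) f ψ := (isHecke_iff _ _ _).1 hψ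
  have hcs : Pool.Agent.TH936.AC.CS ψ := by
    intro I
    obtain ⟨α, hα⟩ : ∃ α : R, I = Ideal.span {α} := (hpid.principal I).principal
    obtain ⟨k1, -, -, -, -, k6, -⟩ := abar R ω hQ
    obtain ⟨β, hβ⟩ := k1 α
    have e1 : Pool.Agent.TH936.AC.bar I = Ideal.span {β} := by
      rw [hα]
      exact k6 α β hβ
    rw [e1, hα]
    exact hc α β hβ
  obtain ⟨w, L₀, L, hw, m1, m2, m3, hL, -, hcount⟩ := Pool.Agent.TH936.AG.finalM hQ e hψe hcs
  refine ⟨w, L₀, L, hw, ⟨m1, m2⟩, m3, fun q χ hχ hcop => ?_, fun ε hε M hM => ?_⟩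
  · obtain ⟨h1, h2⟩ := (isRingClass_iff q χ).1 hχ
    obtain ⟨k1, k2, k3, k4, k5⟩ := hL q χ h1 h2 hcop
    exact ⟨⟨k1.diff, k1.sum⟩, k2, k3, k4, k5, fun d hd a ha => (isRingClass_iff q _).2
      ⟨hpw R ω hQ.qr _ χ h1 d ⟨hd.pos, hd.pow, hd.least⟩ a ha,
        Pool.Agent.TH936.AC.rg_pw h2 a⟩⟩
  · obtain ⟨q0, hq0⟩ := hcount M hM ε hε
    refine ⟨q0, fun q χ hχ hcop hq d hd hdq hS M' k1 k2 k3 => ?_⟩
    obtain ⟨h1, h2⟩ := (isRingClass_iff q χ).1 hχ
    exact (hq0 q χ h1 h2 hcop hq d ⟨hd.pos, hd.pow, hd.least⟩ hdq M' k1 k2 k3).2 hS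

end Pool.Agent.Results.MP_7c08ba_nt.AnticyclotomicSimpleZeros
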